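import Pool.Agent.H90.STK.Stmts

/-!
# Sticky families of lines: module CMP (the slices of the integer line)
-/

set_option autoImplicit false

namespace Pool.STK.CMP

open Finset Real MeasureTheory Pool.STK
open Pool.Agent.H49.Ent Pool.Agent.H32.Dense

/-- Two vectors which determine each other up to a bounded error. -/
lemma H_near {Ω T : Type} [Fintype Ω] {m : ℕ} {p : Ω → ℝ} (hp : ∀ ω, 0 ≤ p ω)
    (h1 : ∑ ω, p ω = 1) (X : Ω → Fin m → ℤ) (Y : Ω → T) (L : ℝ)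
    (h : ∀ ω ω', Y ω = Y ω' → ∀ i, |((X ω i - X ω' i : ℤ) : ℝ)| ≤ L) :
    H p X ≤ H p Y + m * Real.log (2 * L + 1) := by
  have h2 := CH_le_vec hp h1 X Y (fun _ => L) (fun ω ω' _ _ e => h ω ω' e)
  rw [Ex_const h1] at h2
  have h3 : H p X ≤ H p (fun ω => (X ω, Y ω)) :=
    H_mono hp (fun _ _ _ _ e => (Prod.ext_iff.mp e).1)
  have h4 : CH p X Y = H p (fun ω => (X ω, Y ω)) - H p Y := rfl
  linarith

/-- The product of a law with itself is a law. -/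
lemma pr2_law {Ω : Type} [Fintype Ω] {p : Ω → ℝ} (hp : IsLaw p) : IsLaw (pr2 p p) := by
  refine ⟨fun w => mul_nonneg (hp.nonneg _) (hp.nonneg _), ?_⟩
  unfold pr2
  rw [Fintype.sum_prod_type]
  simp_rw [← Finset.mul_sum, hp.sum_one, mul_one, hp.sum_one]

/-- Rounding of a sum. -/
lemma fl_err (x y : ℝ) (j : ℕ) :
    0 ≤ ⌊x + j * y⌋ - (⌊x⌋ + (j : ℤ) * ⌊y⌋) ∧ ⌊x + j * y⌋ - (⌊x⌋ + (j : ℤ) * ⌊y⌋) ≤ j := by
  have hj : (0 : ℝ) ≤ j := Nat.cast_nonneg j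
  have h1 := Int.floor_le x
  have h2 := Int.lt_floor_add_one x
  have h3 := mul_le_mul_of_nonneg_left (Int.floor_le y) hj
  have h4 := mul_le_mul_of_nonneg_left (Int.lt_floor_add_one y).le hj
  constructor
  · rw [sub_nonneg, Int.le_floor]
    push_cast
    linarith
  · have h5 := Int.floor_le (x + j * y)
    have : ((⌊x + j * y⌋ - (⌊x⌋ + (j : ℤ) * ⌊y⌋) : ℤ) : ℝ) < (j : ℝ) + 1 := by
      push_cast
      linarith
    have h6 : (⌊x + j * y⌋ - (⌊x⌋ + (j : ℤ) * ⌊y⌋) : ℤ) < (j : ℤ) + 1 := by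
      have h7 : (((⌊x + j * y⌋ - (⌊x⌋ + (j : ℤ) * ⌊y⌋) : ℤ)) : ℝ) < (((j : ℤ) + 1 : ℤ) : ℝ) := by
        rw [Int.cast_add, Int.cast_one, Int.cast_natCast]
        exact this
      exact Int.cast_lt.mp h7
    omega

lemma floor_near {c x y : ℝ} (hc : 0 < c) (h : ⌊c * x⌋ = ⌊c * y⌋) (A : ℝ) (hA : 0 ≤ A) :
    |((⌊A * x⌋ - ⌊A * y⌋ : ℤ) : ℝ)| ≤ A / c + 1 := by
  have h1 : |c * x - c * y| < 1 := Int.abs_sub_lt_one_of_floor_eq_floor h
  have h2 : |A * x - A * y| ≤ A / c := by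
    have : A * x - A * y = A / c * (c * x - c * y) := by
      field_simp
    rw [this, abs_mul, abs_of_nonneg (div_nonneg hA hc.le)]
    exact mul_le_of_le_one_right (div_nonneg hA hc.le) h1.le
  have h3 := Int.floor_le (A * x)
  have h4 := Int.lt_floor_add_one (A * x)
  have h5 := Int.floor_le (A * y)
  have h6 := Int.lt_floor_add_one (A * y)
  have h7 := abs_le.mp h2
  rw [abs_le]
  push_cast
  constructor <;> linarith

end Pool.STK.CMP

namespace Pool.STK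

open Finset Real MeasureTheory
open Pool.Agent.H49.Ent Pool.Agent.H32.Dense

theorem cmp_thm : CMPStmt := by
  intro m k₀ τ₀ hk0 hτ hkτ
  have hk0' : (3 : ℝ) ≤ k₀ := by exact_mod_cast hk0
  have hτ1 : τ₀ ≤ 1 := by nlinarith
  have hm : (0 : ℝ) ≤ m := Nat.cast_nonneg m
  have hl1 : 0 ≤ Real.log (2 * (1 / τ₀ + 1) + 1) := by
    apply Real.log_nonneg
    have : 0 < 1 / τ₀ := by positivity
    linarith
  have hl2 : 0 ≤ Real.log (2 * (2 * (k₀ : ℝ)) + 1) := Real.log_nonneg (by linarith)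
  have hl3 : 0 ≤ Real.log (2 * (k₀ : ℝ) + 1) := Real.log_nonneg (by linarith)
  refine ⟨m * Real.log (2 * (1 / τ₀ + 1) + 1) + m * Real.log (2 * (2 * (k₀ : ℝ)) + 1) +
    m * Real.log (2 * (k₀ : ℝ) + 1), by positivity, ?_⟩
  intro Ω _ p u d hp hu hd k t₀ ht0 ht1
  have hn1 := mul_nonneg hm hl1
  have hn2 := mul_nonneg hm hl2
  have hn3 := mul_nonneg hm hl3
  have hK : (0 : ℝ) < 2 ^ k := by positivity
  have hK1 : (1 : ℝ) ≤ 2 ^ k := one_le_pow₀ (by norm_num)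
  set l : Ω → (Fin m → ℤ) × (Fin m → ℤ) := fun ω =>
    (fun i => ⌊(2 : ℝ) ^ k * (u ω i + t₀ * d ω i)⌋, fun i => ⌊(2 ^ k * τ₀) * d ω i⌋) with hl
  -- the error
  have herr : ∀ (j : ℕ) (ω : Ω) (i : Fin m), 0 ≤ Xp u d (t₀ + j * τ₀) k ω i - ev j (l ω) i ∧
      Xp u d (t₀ + j * τ₀) k ω i - ev j (l ω) i ≤ j := by
    intro j ω i
    have h1 := CMP.fl_err ((2 : ℝ) ^ k * (u ω i + t₀ * d ω i)) ((2 ^ k * τ₀) * d ω i) j
    have h2 : Xp u d (t₀ + j * τ₀) k ω i =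
        ⌊(2 : ℝ) ^ k * (u ω i + t₀ * d ω i) + j * ((2 ^ k * τ₀) * d ω i)⌋ := by
      show ⌊(2 : ℝ) ^ k * (u ω i + (t₀ + j * τ₀) * d ω i)⌋ = _
      congr 1
      ring
    have h3 : ev j (l ω) i = ⌊(2 : ℝ) ^ k * (u ω i + t₀ * d ω i)⌋ +
        (j : ℤ) * ⌊(2 ^ k * τ₀) * d ω i⌋ := rfl
    rw [h2, h3]
    exact h1
  refine ⟨l, ?_, ?_, ?_⟩
  · -- bounds
    intro ω i
    obtain ⟨hu0, hu1⟩ := hu ω i
    obtain ⟨hd0, hd1⟩ := hd ω i
    have h0 : 0 ≤ t₀ * d ω i := mul_nonneg ht0 hd0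
    have h1 : t₀ * d ω i ≤ 1 := by nlinarith
    have hpow : (2 : ℝ) ^ (k + 1) = 2 * 2 ^ k := by ring
    constructor
    · show |((⌊(2 : ℝ) ^ k * (u ω i + t₀ * d ω i)⌋ : ℤ) : ℝ)| ≤ _
      have h2 : 0 ≤ (2 : ℝ) ^ k * (u ω i + t₀ * d ω i) := by positivity
      have h3 : (0 : ℝ) ≤ (⌊(2 : ℝ) ^ k * (u ω i + t₀ * d ω i)⌋ : ℤ) := by
        exact_mod_cast Int.floor_nonneg.mpr h2
      rw [abs_of_nonneg h3, hpow]
      refine (Int.floor_le _).trans ?_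
      nlinarith
    · show |((⌊(2 ^ k * τ₀) * d ω i⌋ : ℤ) : ℝ)| ≤ _
      have h2 : 0 ≤ (2 ^ k * τ₀) * d ω i := by positivity
      have h3 : (0 : ℝ) ≤ (⌊(2 ^ k * τ₀) * d ω i⌋ : ℤ) := by
        exact_mod_cast Int.floor_nonneg.mpr h2
      rw [abs_of_nonneg h3, hpow]
      refine (Int.floor_le _).trans ?_
      have h4 : τ₀ * d ω i ≤ 1 := by nlinarith
      nlinarith
  · -- the direction
    have h1 := CMP.H_near hp.nonneg hp.sum_one (Fl d k) (fun ω => (l ω).2) (1 / τ₀ + 1) (by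
      intro ω ω' e i
      have h2 : ⌊(2 ^ k * τ₀) * d ω i⌋ = ⌊(2 ^ k * τ₀) * d ω' i⌋ := congrFun e i
      have h3 := CMP.floor_near (by positivity) h2 ((2 : ℝ) ^ k) hK.le
      have h4 : (2 : ℝ) ^ k / (2 ^ k * τ₀) = 1 / τ₀ := by
        field_simp
      rw [h4] at h3
      exact h3)
    linarith
  · intro j hj
    have hjk : (j : ℤ) ≤ k₀ := by exact_mod_cast hj.le
    have e1 : ∀ (ω : Ω) (i : Fin m), 0 ≤ Xp u d (t₀ + j * τ₀) k ω i - ev j (l ω) i ∧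
        Xp u d (t₀ + j * τ₀) k ω i - ev j (l ω) i ≤ k₀ := fun ω i =>
      ⟨(herr j ω i).1, (herr j ω i).2.trans hjk⟩
    have hcast : ∀ (z : ℤ) (n : ℕ), |z| ≤ n → |(z : ℝ)| ≤ (n : ℝ) := by
      intro z n hz
      rw [← Int.cast_abs]
      exact_mod_cast hz
    have hA := CMP.H_near hp.nonneg hp.sum_one (fun ω => ev j (l ω)) (Xp u d (t₀ + j * τ₀) k) k₀ (by
      intro ω ω' e i
      have h1 := e1 ω i
      have h2 := e1 ω' i
      have h3 := congrFun e i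
      apply hcast
      rw [abs_le]
      constructor <;> omega)
    have hB := CMP.H_near hp.nonneg hp.sum_one (Xp u d (t₀ + j * τ₀) k) (fun ω => ev j (l ω)) k₀ (by
      intro ω ω' e i
      have h1 := e1 ω i
      have h2 := e1 ω' i
      have h3 : ev j (l ω) i = ev j (l ω') i := congrFun e i
      apply hcast
      rw [abs_le]
      constructor <;> omega)
    have hC := CMP.H_near (CMP.pr2_law hp).nonneg (CMP.pr2_law hp).sum_one
      (fun w : Ω × Ω => ev j (l w.2) - ev j (l w.1))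
      (fun w : Ω × Ω => Xp u d (t₀ + j * τ₀) k w.2 - Xp u d (t₀ + j * τ₀) k w.1) (2 * k₀) (by
      intro w w' e i
      have h1 := e1 w.1 i
      have h2 := e1 w'.1 i
      have h3 := e1 w.2 i
      have h4 := e1 w'.2 i
      have h5 : Xp u d (t₀ + j * τ₀) k w.2 i - Xp u d (t₀ + j * τ₀) k w.1 i =
        Xp u d (t₀ + j * τ₀) k w'.2 i - Xp u d (t₀ + j * τ₀) k w'.1 i := congrFun e i
      have h6 := hcast ((ev j (l w.2) i - ev j (l w.1) i) - (ev j (l w'.2) i - ev j (l w'.1) i))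
        (2 * k₀) (by
          rw [abs_le]
          push_cast
          constructor <;> omega)
      push_cast at h6
      have h7 : (((fun w : Ω × Ω => ev j (l w.2) - ev j (l w.1)) w i -
        (fun w : Ω × Ω => ev j (l w.2) - ev j (l w.1)) w' i : ℤ) : ℝ) =
        (ev j (l w.2) i : ℝ) - ev j (l w.1) i - (ev j (l w'.2) i - ev j (l w'.1) i) := by
        simp only [Pi.sub_apply]
        push_cast
        ring
      rw [h7]
      exact h6)
    constructor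
    · linarith
    · linarith

end Pool.STK
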