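import Pool.Agent.H58.STK.MEA

/-!
# Sticky families of lines: module SDT (small doubling)
-/

set_option autoImplicit false

namespace Pool.STK.SDT

open Finset Real MeasureTheory Pool.STK
open Pool.Agent.H49.Ent Pool.Agent.H32.Dense

lemma pr2_law {Ω : Type} [Fintype Ω] {p : Ω → ℝ} (hp : IsLaw p) : IsLaw (pr2 p p) := by
  refine ⟨fun w => mul_nonneg (hp.nonneg _) (hp.nonneg _), ?_⟩
  unfold pr2
  rw [Fintype.sum_prod_type]
  simp_rw [← Finset.mul_sum, hp.sum_one, mul_one, hp.sum_one]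

lemma dbl_const {Ω : Type} [Fintype Ω] {p : Ω → ℝ} (hp : IsLaw p) :
    dbl p (fun _ : Ω => ()) = pr2 p p := by
  classical
  funext w
  unfold dbl glue pr2 law
  simp [hp.sum_one]

/-- The entropy of a difference of independent copies is at least the entropy. -/
lemma diff_nonneg {Ω : Type} [Fintype Ω] {m : ℕ} {p : Ω → ℝ} (hp : IsLaw p)
    (X : Ω → Fin m → ℤ) : H p X ≤ H (pr2 p p) (fun w => X w.2 - X w.1) := by
  have h1 := CH_dbl_2 (b := fun _ : Ω => ()) hp.nonneg X X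
  rw [dbl_const hp] at h1
  have hq := pr2_law hp
  have h2 : CH p X (fun _ => ()) ≤ H (pr2 p p) (fun w => X w.2 - X w.1) := by
    rw [← h1]
    have h3 := CH_mono_left hq.nonneg (X' := fun w : Ω × Ω => X w.2 - X w.1)
      (X := fun w : Ω × Ω => X w.2) (W := fun w : Ω × Ω => ((), X w.1)) (by
        intro w w' _ _ e
        simp only [Prod.mk.injEq] at e
        obtain ⟨e1, -, e2⟩ := e
        rw [e2] at e1
        exact sub_left_injective e1)
    refine h3.trans ?_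
    have h4 := CH_mono_cond hq.nonneg (X := fun w : Ω × Ω => X w.2 - X w.1)
      (W' := fun w : Ω × Ω => ((), X w.1)) (W := fun _ : Ω × Ω => ()) (fun _ _ _ _ _ => rfl)
    refine h4.trans ?_
    have h5 : CH (pr2 p p) (fun w : Ω × Ω => X w.2 - X w.1) (fun _ : Ω × Ω => ()) =
      H (pr2 p p) (fun w => (X w.2 - X w.1, ())) - H (pr2 p p) (fun _ : Ω × Ω => ()) := rfl
    rw [h5, H_const hq.sum_one]
    have h6 : H (pr2 p p) (fun w : Ω × Ω => (X w.2 - X w.1, ())) ≤
        H (pr2 p p) (fun w => X w.2 - X w.1) :=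
      H_mono hq.nonneg (fun _ _ _ _ e => Prod.ext e rfl)
    linarith
  refine le_trans ?_ h2
  have h5 : CH p X (fun _ : Ω => ()) =
    H p (fun w => (X w, ())) - H p (fun _ : Ω => ()) := rfl
  rw [h5, H_const hp.sum_one]
  have h6 : H p X ≤ H p (fun w : Ω => (X w, ())) :=
    H_mono hp.nonneg (fun _ _ _ _ e => (Prod.ext_iff.mp e).1)
  linarith

lemma meas_Xp {Ω : Type} {m : ℕ} (u d : Ω → Fin m → ℝ) (k : ℕ) (ω : Ω) :
    Measurable (fun t : ℝ => Xp u d t k ω) := by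
  rw [measurable_pi_iff]
  intro i
  show Measurable (fun t : ℝ => ⌊(2 : ℝ) ^ k * (u ω i + t * d ω i)⌋)
  apply Int.measurable_floor.comp
  fun_prop

/-- Shifted averages of a nonnegative function. -/
lemma shift_le {g : ℝ → ℝ} (hg : ∀ t, 0 ≤ g t) (hi : ∀ a b : ℝ, IntervalIntegrable g volume a b)
    {T c : ℝ} (hT : 0 ≤ T) (hc : 0 ≤ c) (hTc : T + c ≤ 1) :
    ∫ t in (0 : ℝ)..T, g (t + c) ≤ ∫ t in (0 : ℝ)..1, g t := by
  rw [intervalIntegral.integral_comp_add_right, zero_add]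
  exact intervalIntegral.integral_mono_interval hc (by linarith) hTc
    (Filter.Eventually.of_forall hg) (hi 0 1)

lemma Kc_nonneg (k₀ : ℕ) : 0 ≤ Kc k₀ := Finset.sum_nonneg fun x _ => by positivity

end Pool.STK.SDT

namespace Pool.STK

open Finset Real MeasureTheory
open Pool.Agent.H49.Ent Pool.Agent.H32.Dense

theorem sdt_thm (hSDI : SDIStmt) (hCMP : CMPStmt) (_hINT : INTStmt) : SDTStmt := by
  intro m a ρ ha hρ
  -- parameters
  obtain ⟨k₀, hk₀⟩ := exists_nat_ge (1 + 2 / (a - 1) + 3)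
  have ha1 : 0 < a - 1 := by linarith
  have hdiv : 0 < 2 / (a - 1) := by positivity
  have hk3 : 3 ≤ k₀ := by
    have : (3 : ℝ) ≤ k₀ := by linarith
    exact_mod_cast this
  have hk3' : (3 : ℝ) ≤ k₀ := by exact_mod_cast hk3
  have hk1 : (0 : ℝ) < (k₀ : ℝ) - 1 := by linarith
  have hk₀' : (k₀ : ℝ) ≤ ((k₀ : ℝ) - 1) * ((a + 1) / 2) := by
    have h1 : 2 / (a - 1) ≤ (k₀ : ℝ) - 1 := by linarith
    rw [div_le_iff₀ ha1] at h1
    nlinarith
  set θ : ℝ := (a - 1) / (2 * a) with hθ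
  have hθ0 : 0 < θ := by positivity
  have hθ1 : θ ≤ 1 / 2 := by
    rw [hθ, div_le_iff₀ (by linarith)]
    linarith
  have hT : 1 - θ = (a + 1) / (2 * a) := by
    rw [hθ]
    field_simp
    ring
  set T : ℝ := 1 - θ with hTdef
  have hTpos : 0 < T := by linarith
  have haT : (k₀ : ℝ) ≤ ((k₀ : ℝ) - 1) * (T * a) := by
    have : T * a = (a + 1) / 2 := by
      rw [hT]
      field_simp
    rw [this]
    exact hk₀'
  set τ₀ : ℝ := θ / ((k₀ : ℝ) - 1) with hτ
  have hτ0 : 0 < τ₀ := by positivity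
  have hkτ : ((k₀ : ℝ) - 1) * τ₀ = θ := by
    rw [hτ]
    field_simp
  obtain ⟨C, hC0, hC⟩ := hCMP m k₀ τ₀ hk3 hτ0 (by rw [hkτ]; exact hθ1)
  obtain ⟨S, hS⟩ := exists_nat_ge (4 * m / ρ + 1)
  have hm : (0 : ℝ) ≤ m := Nat.cast_nonneg m
  have hS1' : (1 : ℝ) ≤ S := by
    have : 0 ≤ 4 * (m : ℝ) / ρ := by positivity
    linarith
  have hS1 : 1 ≤ S := by exact_mod_cast hS1'
  have hSm : 4 * (m : ℝ) ≤ ρ * S := by
    have : 4 * (m : ℝ) / ρ ≤ S := by linarith
    rw [div_le_iff₀ hρ] at this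
    linarith
  set K : ℝ := Kc k₀ ^ S with hK
  have hK0 : 0 ≤ K := pow_nonneg (SDT.Kc_nonneg k₀) S
  have hlogK : 0 ≤ Real.log (2 * K + 1) := Real.log_nonneg (by linarith)
  set B : ℝ := a * (C * (1 + 2 * K)) + C + ρ / 2 + (2 * m * Real.log (2 * K + 1) + 1) with hB
  obtain ⟨k₁, hk₁⟩ := exists_nat_ge (2 * B / ρ)
  refine ⟨2 * K * a, by positivity, k₁, ?_⟩
  intro k hk Ω _ p u d hp hu hd
  have hkk : 2 * B ≤ ρ * k := by
    have h1 : (k₁ : ℝ) ≤ k := by exact_mod_cast hk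
    have h2 : 2 * B / ρ ≤ k := hk₁.trans h1
    rw [div_le_iff₀ hρ] at h2
    linarith
  -- the functions of the time
  set h : ℝ → ℝ := fun t => H p (Xp u d t k) with hh
  set h2 : ℝ → ℝ := fun t => H (pr2 p p) (fun w => Xp u d t k w.2 - Xp u d t k w.1) with hh2
  have hq := SDT.pr2_law hp
  have hi1 : ∀ x y : ℝ, IntervalIntegrable h volume x y :=
    (mea_thm Ω (Fin m → ℤ) p hp (fun t => Xp u d t k) (fun ω ω' =>
      measurableSet_eq_fun (SDT.meas_Xp u d k ω) (SDT.meas_Xp u d k ω'))).2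
  have hi2 : ∀ x y : ℝ, IntervalIntegrable h2 volume x y :=
    (mea_thm (Ω × Ω) (Fin m → ℤ) (pr2 p p) hq (fun t w => Xp u d t k w.2 - Xp u d t k w.1)
      (fun w w' => measurableSet_eq_fun
        ((SDT.meas_Xp u d k w.2).sub (SDT.meas_Xp u d k w.1))
        ((SDT.meas_Xp u d k w'.2).sub (SDT.meas_Xp u d k w'.1)))).2
  have hpos1 : ∀ t, 0 ≤ h t := fun t => H_nonneg hp.nonneg hp.sum_one _
  have hpos2 : ∀ t, 0 ≤ h2 t - h t := fun t => sub_nonneg.mpr (SDT.diff_nonneg hp _)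
  set g : ℝ → ℝ := fun t => h t + 2 * K * (h2 t - h t) with hg
  have hgpos : ∀ t, 0 ≤ g t := fun t =>
    add_nonneg (hpos1 t) (mul_nonneg (by positivity) (hpos2 t))
  have hgi : ∀ x y : ℝ, IntervalIntegrable g volume x y := fun x y =>
    (hi1 x y).add (((hi2 x y).sub (hi1 x y)).const_mul _)
  set E : ℝ := (2 * m * Real.log (2 * (K * 2 ^ (k + 1)) + 1) + 1) / S with hE
  -- the bound of the error of the integer inequality
  have hEle : E ≤ ρ / 2 * (k + 1) + (2 * m * Real.log (2 * K + 1) + 1) := by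
    have hpw : (1 : ℝ) ≤ 2 ^ (k + 1) := one_le_pow₀ (by norm_num)
    have h1 : Real.log (2 * (K * 2 ^ (k + 1)) + 1) ≤ (k + 1) + Real.log (2 * K + 1) := by
      have h3 : 2 * (K * 2 ^ (k + 1)) + 1 ≤ 2 ^ (k + 1) * (2 * K + 1) := by
        nlinarith
      have h4 : (0 : ℝ) < 2 * (K * 2 ^ (k + 1)) + 1 := by positivity
      refine (Real.log_le_log h4 h3).trans ?_
      rw [Real.log_mul (by positivity) (by positivity), Real.log_pow]
      have h5 : Real.log 2 ≤ 1 := by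
        have := Real.log_two_lt_d9
        linarith
      push_cast
      nlinarith
    rw [hE, div_le_iff₀ (by linarith)]
    have h6 : 2 * (m : ℝ) * Real.log (2 * (K * 2 ^ (k + 1)) + 1) + 1 ≤
        2 * m * ((k + 1) + Real.log (2 * K + 1)) + 1 := by
      have := mul_le_mul_of_nonneg_left h1 (by positivity : (0 : ℝ) ≤ 2 * m)
      linarith
    refine h6.trans ?_
    have h7 : 2 * (m : ℝ) * (k + 1) ≤ ρ / 2 * (k + 1) * S := by
      have hk0 : (0 : ℝ) ≤ (k : ℝ) + 1 := by positivity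
      nlinarith
    have h8 : 2 * (m : ℝ) * Real.log (2 * K + 1) + 1 ≤ (2 * m * Real.log (2 * K + 1) + 1) * S := by
      have : 0 ≤ 2 * (m : ℝ) * Real.log (2 * K + 1) + 1 := by positivity
      nlinarith
    nlinarith
  -- the pointwise inequality
  set c₀ : ℝ := k₀ * (C * (1 + 2 * K)) + ((k₀ : ℝ) - 1) * E + ((k₀ : ℝ) - 1) * C with hc₀
  have hpt : ∀ t ∈ Set.Icc (0 : ℝ) T, ((k₀ : ℝ) - 1) * H p (Fl d k) ≤
      ∑ j ∈ Finset.range k₀, g (t + j * τ₀) + c₀ := by
    intro t ht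
    obtain ⟨l, hl1, hl2, hl3⟩ := hC Ω p u d hp hu hd k t ht.1 (by linarith [ht.2])
    have h1 := hSDI m k₀ S hk3 hS1 Ω p l (2 ^ (k + 1)) hp (one_le_pow₀ (by norm_num)) hl1
    have h3 : ∑ j ∈ Finset.range k₀, (H p (fun ω => ev j (l ω)) + Kc k₀ ^ S *
        (2 * (H (pr2 p p) (fun w => ev j (l w.2) - ev j (l w.1)) - H p (fun ω => ev j (l ω))))) ≤
        ∑ j ∈ Finset.range k₀, (g (t + j * τ₀) + C * (1 + 2 * K)) := by
      refine Finset.sum_le_sum fun j hj => ?_
      obtain ⟨h4, h5⟩ := hl3 j (Finset.mem_range.mp hj)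
      have h6 := mul_le_mul_of_nonneg_left h5 (by positivity : 0 ≤ 2 * K)
      simp only [hg, hh, hh2]
      nlinarith
    have h3' : ∑ j ∈ Finset.range k₀, (g (t + j * τ₀) + C * (1 + 2 * K)) =
        ∑ j ∈ Finset.range k₀, g (t + j * τ₀) + k₀ * (C * (1 + 2 * K)) := by
      rw [Finset.sum_add_distrib, Finset.sum_const, Finset.card_range, nsmul_eq_mul]
    rw [h3'] at h3
    have h7 := mul_le_mul_of_nonneg_left hl2 hk1.le
    rw [hc₀, hE, hK]
    linarith
  -- integration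
  have hci : ∀ j : ℕ, IntervalIntegrable (fun t => g (t + j * τ₀)) volume 0 T := by
    intro j
    have := (hgi (0 + j * τ₀) (T + j * τ₀)).comp_add_right (j * τ₀)
    simpa using this
  have hsi : IntervalIntegrable (fun t => ∑ j ∈ Finset.range k₀, g (t + j * τ₀)) volume 0 T := by
    have h1 := IntervalIntegrable.sum (Finset.range k₀) (f := fun (j : ℕ) t => g (t + j * τ₀))
      (fun j _ => hci j)
    have h3 : (fun t => ∑ j ∈ Finset.range k₀, g (t + j * τ₀)) =
        ∑ j ∈ Finset.range k₀, fun t => g (t + j * τ₀) := by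
      funext t
      rw [Finset.sum_apply]
    rw [h3]
    exact h1
  have hint : T * (((k₀ : ℝ) - 1) * H p (Fl d k)) ≤
      ∑ j ∈ Finset.range k₀, (∫ t in (0 : ℝ)..T, g (t + j * τ₀)) + T * c₀ := by
    have h1 := intervalIntegral.integral_mono_on (μ := volume) hTpos.le
      (f := fun _ => ((k₀ : ℝ) - 1) * H p (Fl d k))
      (g := fun t => ∑ j ∈ Finset.range k₀, g (t + j * τ₀) + c₀)
      intervalIntegrable_const (hsi.add intervalIntegrable_const) hpt
    rw [intervalIntegral.integral_const, intervalIntegral.integral_add hsi intervalIntegrable_const,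
      intervalIntegral.integral_const, intervalIntegral.integral_finsetSum (fun j _ => hci j)]
      at h1
    simpa using h1
  have hsum : ∑ j ∈ Finset.range k₀, (∫ t in (0 : ℝ)..T, g (t + j * τ₀)) ≤
      k₀ * ∫ t in (0 : ℝ)..1, g t := by
    have h1 : ∑ j ∈ Finset.range k₀, (∫ t in (0 : ℝ)..T, g (t + j * τ₀)) ≤
        ∑ _j ∈ Finset.range k₀, ∫ t in (0 : ℝ)..1, g t := by
      refine Finset.sum_le_sum fun j hj => ?_
      have hj' : (j : ℝ) ≤ (k₀ : ℝ) - 1 := by
        have : j + 1 ≤ k₀ := Finset.mem_range.mp hj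
        have : ((j + 1 : ℕ) : ℝ) ≤ k₀ := by exact_mod_cast this
        push_cast at this
        linarith
      have hjθ : (j : ℝ) * τ₀ ≤ θ := by
        rw [← hkτ]
        exact mul_le_mul_of_nonneg_right hj' hτ0.le
      exact SDT.shift_le hgpos hgi hTpos.le (by positivity) (by linarith)
    rw [Finset.sum_const, Finset.card_range, nsmul_eq_mul] at h1
    exact h1
  have hsplit : ∫ t in (0 : ℝ)..1, g t = (∫ t in (0 : ℝ)..1, h t) +
      2 * K * ∫ t in (0 : ℝ)..1, (h2 t - h t) := by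
    rw [← intervalIntegral.integral_const_mul, ← intervalIntegral.integral_add (hi1 0 1)
      (((hi2 0 1).sub (hi1 0 1)).const_mul _)]
  have hG0 : 0 ≤ ∫ t in (0 : ℝ)..1, g t :=
    intervalIntegral.integral_nonneg (by norm_num) (fun t _ => hgpos t)
  -- conclusion
  set G : ℝ := ∫ t in (0 : ℝ)..1, g t with hGdef
  have hfin : H p (Fl d k) ≤ a * G + a * (C * (1 + 2 * K)) + E + C := by
    have h1 : T * (((k₀ : ℝ) - 1) * H p (Fl d k)) ≤ k₀ * G + T * c₀ := by linarith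
    have hTk : 0 < T * ((k₀ : ℝ) - 1) := mul_pos hTpos hk1
    have h3 : (k₀ : ℝ) * G ≤ T * ((k₀ : ℝ) - 1) * (a * G) := by
      have := mul_le_mul_of_nonneg_right haT hG0
      linarith
    have h4 : T * ((k₀ : ℝ) * (C * (1 + 2 * K))) ≤ T * ((k₀ : ℝ) - 1) * (a * (C * (1 + 2 * K))) := by
      have h5 : (k₀ : ℝ) ≤ ((k₀ : ℝ) - 1) * a := by
        refine haT.trans (mul_le_mul_of_nonneg_left ?_ hk1.le)
        nlinarith
      have h6 : 0 ≤ T * (C * (1 + 2 * K)) := by positivity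
      have := mul_le_mul_of_nonneg_right h5 h6
      linarith
    have h5 : T * ((k₀ : ℝ) - 1) * H p (Fl d k) ≤
        T * ((k₀ : ℝ) - 1) * (a * G + a * (C * (1 + 2 * K)) + E + C) := by
      rw [hc₀] at h1
      linarith
    exact le_of_mul_le_mul_left h5 hTk
  rw [hsplit] at hfin
  have hlast : a * (C * (1 + 2 * K)) + E + C ≤ ρ * k := by
    rw [hB] at hkk
    linarith
  have hgoal : a * ((∫ t in (0 : ℝ)..1, h t) + 2 * K * ∫ t in (0 : ℝ)..1, (h2 t - h t)) =
      a * (∫ t in (0 : ℝ)..1, h t) + 2 * K * a * ∫ t in (0 : ℝ)..1, (h2 t - h t) := by ring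
  linarith

end Pool.STK
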